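import Mathlib
import Pool.Agent.L0h74.AP.Den
import Pool.Agent.L0h74.EV.DensB

/-!
# AP: the proportion of the good numbers `D₀ m`, `m` in a class prime to the modulus
-/

set_option autoImplicit false
set_option linter.unusedSectionVars false
set_option linter.unusedVariables false

open scoped Classical

namespace Pool.Agent.L0h74.AP

open Finset Filter
open scoped Topology
open Pool.Agent.Y698 Pool.Agent.Y698.SG
open Pool.Agent.L0h4.TW hiding Dt
open Pool.Agent.L0h23.KD (Aw bw tr recA)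
open Pool.Agent.L0h23.ED (lam lab S_R2 kn kl kb k7 SysE Sys3 NSE NS3)
open Pool.Agent.N973.ND (Pr m7 uu ty RecA Gd)
open Pool.Agent.L0h74.EV (QPw NSA dtO dtE recA_O ns3_iff nse_iff GdE)
open Pool.Agent.L0h61.EV (r2)
open Pool.Agent.Y703.CQ (c2)

section
variable {Qf Pf : ℕ → Finset ℕ} {w : ℕ → RR} {g u a : ℕ}

theorem Cg.sqD (h : Cg g u a) {D : ℕ} (hD : Squarefree D ∧ D % (g * u) = g * a) :
    D % 2 = 1 ∧ ¬ 7 ∣ D := by
  obtain ⟨h1, h2⟩ := h.odd7 hD.2
  exact ⟨h1, fun h3 => h2 (Nat.mod_eq_zero_of_dvd h3)⟩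

/-- the numbers `D = g m`, `D` odd -/
theorem base1 (h : QPw Qf Pf w) (hg : Cg g u a) (h8 : 8 ∣ u) :
    ∀ ε : ℝ, 0 < ε → ∀ᶠ X : ℕ in atTop,
      |(((GSg g u a X).filter fun D => NSA Qf Pf w D).card : ℝ) -
        c2 / 2 * ((GSg g u a X).card : ℝ)| ≤ ε * X := by
  have h8' : ∀ D : ℕ, D % (g * u) = g * a → D % 8 = (g * a) % 8 := by
    intro D hD
    rw [← hD, Nat.mod_mod_of_dvd]
    exact Dvd.dvd.mul_left h8 g
  have hodd : (g * a) % 2 = 1 := by
    have hlt : g * a < g * u := Nat.mul_lt_mul_of_pos_left hg.cp.lt hg.gpos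
    exact (hg.odd7 (Nat.mod_eq_of_lt hlt)).1
  intro ε hε
  have hc : (g * a) % 4 = 1 ∨ (g * a) % 4 = 3 := by omega
  rcases hc with hc | hc
  · filter_upwards [Pool.Agent.L0h74.AP.Den.dqO hg hc (fun p q => lg (sy (w q) (w p)))
      (fun p => lg (e7 (w p))) (recA h.w) ε hε] with X hX
    rw [show (GSg g u a X).filter (fun D => NSA Qf Pf w D) = (GSg g u a X).filter (fun D =>
      Gd (fun p q => lg (sy (w q) (w p))) (fun p => lg (e7 (w p))) D.primeFactors) from ?_]
    · exact hX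
    refine Finset.filter_congr fun D hD => ?_
    rw [GSg, mem_filter] at hD
    obtain ⟨-, hD⟩ := hD
    obtain ⟨o1, o2⟩ := hg.sqD hD
    have e8 := h8' D hD.2
    have hd := h.dt (D := D) o1 o2
    rw [← h.un D, ← tr hd]
    constructor
    · rintro (h' | h' | h')
      · exact h'.2
      · omega
      · omega
    · exact fun h' => Or.inl ⟨by omega, h'⟩
  · filter_upwards [Pool.Agent.L0h74.AP.Den.dqE hg
      (dtO w (fun p => lam (w p)) (if (g * a) % 8 = 3 then 1 else 0)) (recA_O h _ _)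
      (Or.inr ⟨rfl, hc⟩) ε hε] with X hX
    rw [show (GSg g u a X).filter (fun D => NSA Qf Pf w D) = (GSg g u a X).filter (fun D =>
      GdE (dtO w (fun p => lam (w p)) (if (g * a) % 8 = 3 then 1 else 0)) D.primeFactors) from ?_]
    · exact hX
    refine Finset.filter_congr fun D hD => ?_
    rw [GSg, mem_filter] at hD
    obtain ⟨-, hD⟩ := hD
    obtain ⟨o1, o2⟩ := hg.sqD hD
    have e8 := h8' D hD.2
    have h4 : D % 4 = 3 := by omega
    have hd := h.dt (D := D) o1 o2
    have hns := ns3_iff r2 hd (h.prod hD.1) h4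
    rw [h.un, e8] at hns
    rw [← hns]
    constructor
    · rintro (h' | h' | h')
      · omega
      · exact h'.2
      · omega
    · exact fun h' => Or.inr (Or.inl ⟨h4, h'⟩)

/-- the numbers `2 D`, `D = g m` -/
theorem base2 (h : QPw Qf Pf w) (hg : Cg g u a) (h8 : 8 ∣ u) :
    ∀ ε : ℝ, 0 < ε → ∀ᶠ X : ℕ in atTop,
      |(((GSg g u a X).filter fun D => NSA Qf Pf w (2 * D)).card : ℝ) -
        c2 / 2 * ((GSg g u a X).card : ℝ)| ≤ ε * X := by
  have h8' : ∀ D : ℕ, D % (g * u) = g * a → D % 8 = (g * a) % 8 := by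
    intro D hD
    rw [← hD, Nat.mod_mod_of_dvd]
    exact Dvd.dvd.mul_left h8 g
  have hodd : (g * a) % 2 = 1 := by
    have hlt : g * a < g * u := Nat.mul_lt_mul_of_pos_left hg.cp.lt hg.gpos
    exact (hg.odd7 (Nat.mod_eq_of_lt hlt)).1
  intro ε hε
  have hc : (g * a) % 4 = 1 ∨ (g * a) % 4 = 3 := by omega
  filter_upwards [Pool.Agent.L0h74.AP.Den.dqE hg
      (dtE w (fun p => lam (w p)) (if (g * a) % 4 = 3 then 3 else 2)) (recA h.w)
      (by
        rcases hc with hc | hc
        · left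
          refine ⟨?_, hc⟩
          show (if (g * a) % 4 = 3 then 3 else 2) = 2
          rw [if_neg (by omega)]
        · right
          refine ⟨?_, hc⟩
          show (if (g * a) % 4 = 3 then 3 else 2) = 3
          rw [if_pos hc]) ε hε] with X hX
  rw [show (GSg g u a X).filter (fun D => NSA Qf Pf w (2 * D)) = (GSg g u a X).filter (fun D =>
      GdE (dtE w (fun p => lam (w p)) (if (g * a) % 4 = 3 then 3 else 2)) D.primeFactors) from ?_]
  · exact hX
  refine Finset.filter_congr fun D hD => ?_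
  rw [GSg, mem_filter] at hD
  obtain ⟨-, hD⟩ := hD
  obtain ⟨o1, o2⟩ := hg.sqD hD
  have e8 := h8' D hD.2
  have e4 : D % 4 = (g * a) % 4 := by omega
  have hd := h.dt (D := D) o1 o2
  have hns := nse_iff r2 hd (h.prod hD.1)
  rw [h.un, e4] at hns
  rw [← hns]
  have e : 2 * D / 2 = D := by omega
  unfold NSA
  rw [e]
  constructor
  · rintro (h' | h' | h')
    · omega
    · omega
    · exact h'.2
  · exact fun h' => Or.inr (Or.inr ⟨by omega, h'⟩)

end

end Pool.Agent.L0h74.AP
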