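import Mathlib
import Pool.Agent.L0h74.AP.Base

/-!
# AP: the proportion of the good numbers `D₀ m`, `m` in a class prime to the modulus
-/

set_option autoImplicit false
set_option linter.unusedSectionVars false
set_option linter.unusedVariables false

open scoped Classical

namespace Pool.Agent.L0h74.AP

open Finset Filter
open scoped Topology
open Pool.Agent.Y698 Pool.Agent.Y698.SG
open Pool.Agent.L0h74.EV (QPw NSA)
open Pool.Agent.Y703.CQ (c2)

theorem sqf_dvd {D u : ℕ} (hD : Squarefree D) (h : ∀ p, p.Prime → p ∣ D → p ∣ u) : D ∣ u := by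
  rw [← Nat.prod_primeFactors_of_squarefree hD]
  refine Finset.prod_primes_dvd _ (fun p hp => (Nat.prime_of_mem_primeFactors hp).prime)
    (fun p hp => h p (Nat.prime_of_mem_primeFactors hp) (Nat.dvd_of_mem_primeFactors hp))

section
variable {Qf Pf : ℕ → Finset ℕ} {w : ℕ → RR} {u a : ℕ}

/-- scaling -/
theorem scale {g : ℕ} (hg : Cg g u a) (P : ℕ → Prop) (c : ℝ)
    (h : ∀ ε : ℝ, 0 < ε → ∀ᶠ X : ℕ in atTop,
      |(((GSg g u a X).filter P).card : ℝ) - c * ((GSg g u a X).card : ℝ)| ≤ ε * X) :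
    ∀ ε : ℝ, 0 < ε → ∀ᶠ Y : ℕ in atTop,
      |(((GS u a Y).filter fun m => P (g * m)).card : ℝ) - c * ((GS u a Y).card : ℝ)| ≤ ε * Y := by
  intro ε hε
  have hg0 : (0 : ℝ) < g := by exact_mod_cast hg.gpos
  have h1 := (h (ε / g) (by positivity))
  have ht : Tendsto (fun Y : ℕ => g * Y) atTop atTop :=
    Filter.tendsto_id.const_mul_atTop' hg.gpos
  filter_upwards [ht.eventually h1] with Y hY
  rw [GSg_card hg (g * Y) P, GSg_card0 hg, Nat.mul_div_cancel_left Y hg.gpos] at hY
  refine hY.trans (le_of_eq ?_)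
  push_cast
  field_simp

/-- **The proportion of the good numbers `D₀ m`.** -/
theorem base (h : QPw Qf Pf w) (hc : Cp u a) (h8 : 8 ∣ u) {D₀ : ℕ} (hD : Squarefree D₀)
    (h7 : ¬ 7 ∣ D₀) (hp : ∀ p, p.Prime → p ∣ D₀ → p ∣ u) :
    ∀ ε : ℝ, 0 < ε → ∀ᶠ Y : ℕ in atTop,
      |(((GS u a Y).filter fun m => NSA Qf Pf w (D₀ * m)).card : ℝ) -
        c2 / 2 * ((GS u a Y).card : ℝ)| ≤ ε * Y := by
  have h4 : 4 ∣ u := (by norm_num : 4 ∣ 8).trans h8
  rcases Nat.even_or_odd D₀ with he | ho
  · obtain ⟨g, hg⟩ := he.two_dvd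
    have hsq : Squarefree g ∧ g % 2 = 1 := by
      rw [hg, Pool.Agent.L0h74.EV.Uni.sf_two] at hD
      exact ⟨hD.2, hD.1⟩
    have hCg : Cg g u a := by
      refine ⟨hc, h4, hsq.1, sqf_dvd hsq.1 fun p h1 h2 => hp p h1 ?_, ?_⟩
      · rw [hg]; exact Dvd.dvd.mul_left h2 2
      · have h2 : Nat.Coprime g 2 := by
          rw [Nat.coprime_comm, Nat.Prime.coprime_iff_not_dvd Nat.prime_two]
          omega
        have h7' : Nat.Coprime g 7 := by
          rw [Nat.coprime_comm, Nat.Prime.coprime_iff_not_dvd (by norm_num)]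
          intro h'
          apply h7
          rw [hg]
          exact Dvd.dvd.mul_left h' 2
        exact Nat.Coprime.mul_right h2 h7'
    have := scale hCg (fun D => NSA Qf Pf w (2 * D)) (c2 / 2) (base2 h hCg h8)
    intro ε hε
    filter_upwards [this ε hε] with Y hY
    rw [show (GS u a Y).filter (fun m => NSA Qf Pf w (D₀ * m)) =
      (GS u a Y).filter (fun m => NSA Qf Pf w (2 * (g * m))) from ?_]
    · exact hY
    · refine Finset.filter_congr fun m _ => ?_
      rw [hg, mul_assoc]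
  · have hCg : Cg D₀ u a := by
      refine ⟨hc, h4, hD, sqf_dvd hD hp, ?_⟩
      have h2 : Nat.Coprime D₀ 2 := by
        rw [Nat.coprime_comm, Nat.Prime.coprime_iff_not_dvd Nat.prime_two]
        obtain ⟨k, hk⟩ := ho
        omega
      have h7' : Nat.Coprime D₀ 7 := by
        rw [Nat.coprime_comm, Nat.Prime.coprime_iff_not_dvd (by norm_num)]
        exact h7
      exact Nat.Coprime.mul_right h2 h7'
    exact scale hCg (fun D => NSA Qf Pf w D) (c2 / 2) (base1 h hCg h8)

end

end Pool.Agent.L0h74.AP
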