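import Mathlib
import Pool.Agent.L0h74.AP.Base2

/-!
# AP: sets of square-free integers defined by conditions on the sign and on a modulus
-/

set_option autoImplicit false
set_option linter.unusedSectionVars false
set_option linter.unusedVariables false

open scoped Classical

namespace Pool.Agent.L0h74.AP

open Finset Filter
open scoped Topology

/-- the class of an integer: the sign, the part composed of the primes of `u`, the rest modulo `u` -/
def key (u : ℕ) (e : ℤ) : ℤ × ℕ × ℕ :=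
  (e.sign, Nat.gcd e.natAbs u, (e.natAbs / Nat.gcd e.natAbs u) % u)

/-- `T` depends on the class only -/
def ClassFn (u : ℕ) (T : ℤ → Prop) : Prop :=
  ∀ e e' : ℤ, Squarefree e → Squarefree e' → key u e = key u e' → (T e ↔ T e')

/-- a height function on the square-free integers -/
def HtFn (u : ℕ) (N : ℤ → ℕ) : Prop :=
  ∃ F : ℤ → ℕ → ℕ → ℕ, (∀ s g a, g ≤ F s g a) ∧
    ∀ (s : ℤ) (g m : ℕ), (s = 1 ∨ s = -1) → N (s * g * m) = F s g (m % u) * m

theorem key_mul {u : ℕ} {s : ℤ} (hs : s = 1 ∨ s = -1) {g m : ℕ} (hg : g ∣ u) (hg0 : 0 < g)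
    (hm : Nat.Coprime m u) (hm0 : 0 < m) : key u (s * g * m) = (s, g, m % u) := by
  have hn : (s * g * m : ℤ).natAbs = g * m := by
    rw [Int.natAbs_mul, Int.natAbs_mul, Int.natAbs_natCast, Int.natAbs_natCast]
    rcases hs with rfl | rfl <;> simp
  have hg1 : Nat.gcd (g * m) u = g := by
    rw [Nat.Coprime.gcd_mul_right_cancel g hm]
    exact Nat.gcd_eq_left hg
  have hsg : (s * g * m : ℤ).sign = s := by
    rw [Int.sign_mul, Int.sign_mul, Int.sign_natCast_of_ne_zero hg0.ne',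
      Int.sign_natCast_of_ne_zero hm0.ne']
    rcases hs with rfl | rfl <;> simp
  unfold key
  rw [hn, hg1, hsg, Nat.mul_div_cancel_left m hg0]

/-- the decomposition of a square-free integer -/
theorem dec {u : ℕ} (hu : 0 < u) {e : ℤ} (he : Squarefree e) {s : ℤ} {g a : ℕ}
    (hk : key u e = (s, g, a)) :
    (s = 1 ∨ s = -1) ∧ 0 < g ∧ g ∣ u ∧ Squarefree g ∧ a < u ∧ Nat.Coprime a u ∧
      ∃ m : ℕ, e = s * g * m ∧ 0 < m ∧ m % u = a ∧ Squarefree m ∧ Nat.Coprime m u := by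
  have he0 : e ≠ 0 := he.ne_zero
  have hn0 : e.natAbs ≠ 0 := Int.natAbs_ne_zero.2 he0
  have hsq : Squarefree e.natAbs := Int.squarefree_natAbs.2 he
  unfold key at hk
  rw [Prod.mk.injEq, Prod.mk.injEq] at hk
  obtain ⟨h1, h2, h3⟩ := hk
  have hgpos : 0 < g := by
    rw [← h2]
    exact Nat.gcd_pos_of_pos_right _ hu
  have hgu : g ∣ u := by rw [← h2]; exact Nat.gcd_dvd_right _ _
  have hge : g ∣ e.natAbs := by rw [← h2]; exact Nat.gcd_dvd_left _ _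
  obtain ⟨m, hm⟩ := hge
  have hm0 : 0 < m := by
    rcases Nat.eq_zero_or_pos m with h | h
    · rw [h, mul_zero] at hm; exact absurd hm hn0
    · exact h
  rw [h2, hm, Nat.mul_div_cancel_left m hgpos] at h3
  have hsq' := hsq
  rw [hm, Nat.squarefree_mul_iff] at hsq'
  have hcop : Nat.Coprime m u := by
    rw [Nat.coprime_iff_gcd_eq_one]
    by_contra hne
    obtain ⟨p, hp, hd⟩ := Nat.exists_prime_and_dvd hne
    have hpm := hd.trans (Nat.gcd_dvd_left _ _)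
    have hpu := hd.trans (Nat.gcd_dvd_right _ _)
    have hpe : p ∣ e.natAbs := by rw [hm]; exact Dvd.dvd.mul_left hpm g
    have hpg : p ∣ g := by rw [← h2]; exact Nat.dvd_gcd hpe hpu
    have h5 := Nat.dvd_gcd hpg hpm
    rw [hsq'.1] at h5
    exact hp.one_lt.ne' (Nat.dvd_one.1 h5)
  have hs : s = 1 ∨ s = -1 := by
    rw [← h1]
    rcases lt_or_gt_of_ne he0 with h | h
    · right; exact Int.sign_eq_neg_one_of_neg h
    · left; exact Int.sign_eq_one_of_pos h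
  refine ⟨hs, hgpos, hgu, hsq'.2.1, ?_, ?_, m, ?_, hm0, h3, hsq'.2.2, hcop⟩
  · rw [← h3]; exact Nat.mod_lt _ hu
  · rw [← h3, Nat.coprime_iff_gcd_eq_one, ← Nat.gcd_rec, Nat.gcd_comm]
    exact hcop
  · rw [mul_assoc, ← Nat.cast_mul, ← hm, ← h1]
    exact (Int.sign_mul_natAbs e).symm

theorem fiber {u : ℕ} {N : ℤ → ℕ} {s : ℤ} (hs : s = 1 ∨ s = -1) {g a : ℕ} (hg : Squarefree g)
    (hgu : g ∣ u) (hc : Cp u a) {F : ℕ} (hF : g ≤ F)
    (hN : ∀ m : ℕ, m % u = a → N (s * g * m) = F * m) (X : ℕ) (P : ℤ → Prop) :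
    ((Icc (-(X : ℤ)) X).filter fun e => Squarefree e ∧ N e ≤ X ∧ key u e = (s, g, a) ∧ P e).card =
      ((GS u a (X / F)).filter fun m : ℕ => P (s * g * m)).card := by
  have hg0 : 0 < g := Nat.pos_of_ne_zero hg.ne_zero
  have hF0 : 0 < F := lt_of_lt_of_le hg0 hF
  have hcop : ∀ m : ℕ, m % u = a → Nat.Coprime m u := by
    intro m hm
    rw [Nat.coprime_iff_gcd_eq_one, Nat.gcd_comm, Nat.gcd_rec, hm]
    exact hc.cop
  symm
  refine card_bij (fun m _ => s * g * m) ?_ ?_ ?_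
  · intro m hm
    rw [mem_filter, GS, mem_filter, mem_Icc] at hm
    obtain ⟨⟨⟨h1, h2⟩, h3, h4⟩, h5⟩ := hm
    have hn : (s * g * m : ℤ).natAbs = g * m := by
      rw [Int.natAbs_mul, Int.natAbs_mul, Int.natAbs_natCast, Int.natAbs_natCast]
      rcases hs with rfl | rfl <;> simp
    have h6 : F * m ≤ X := by
      have := Nat.mul_le_mul_left F h2
      exact this.trans (Nat.mul_div_le X F)
    have h7 : (s * g * m : ℤ).natAbs ≤ X := by
      rw [hn]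
      exact (Nat.mul_le_mul_right m hF).trans h6
    rw [mem_filter, mem_Icc]
    refine ⟨⟨by omega, by omega⟩, ?_, ?_, ?_, h5⟩
    · rw [← Int.squarefree_natAbs, hn, Nat.squarefree_mul_iff]
      exact ⟨Nat.Coprime.coprime_dvd_left hgu (hcop m h4).symm, hg, h3⟩
    · rw [hN m h4]
      exact h6
    · rw [key_mul hs hgu hg0 (hcop m h4) h1, h4]
  · intro m _ m' _ he
    have hs0 : s ≠ 0 := by rcases hs with rfl | rfl <;> norm_num
    have h1 : (s * g : ℤ) ≠ 0 := mul_ne_zero hs0 (by exact_mod_cast hg0.ne')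
    have := mul_left_cancel₀ h1 he
    exact_mod_cast this
  · intro e he
    rw [mem_filter, mem_Icc] at he
    obtain ⟨⟨h1, h2⟩, h3, h4, h5, h6⟩ := he
    obtain ⟨-, -, -, -, -, -, m, hm, hm0, hma, hms, -⟩ := dec hc.pos h3 h5
    refine ⟨m, ?_, hm.symm⟩
    rw [mem_filter, GS, mem_filter, mem_Icc]
    rw [hm, hN m hma] at h4
    refine ⟨⟨⟨hm0, ?_⟩, hms, hma⟩, by rw [← hm]; exact h6⟩
    rw [Nat.le_div_iff_mul_le hF0, mul_comm]
    exact h4

/-- the keys which occur -/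
noncomputable def KK' (u : ℕ) (T : ℤ → Prop) : Finset (ℤ × ℕ × ℕ) :=
  ((({1, -1} : Finset ℤ) ×ˢ (u.divisors ×ˢ range u))).filter fun k =>
    ∃ e : ℤ, Squarefree e ∧ key u e = k ∧ T e

/-- the count -/
noncomputable def cnt (N : ℤ → ℕ) (T : ℤ → Prop) (X : ℕ) : ℕ :=
  ((Icc (-(X : ℤ)) X).filter fun e => Squarefree e ∧ N e ≤ X ∧ T e).card

theorem cnt_eq {u : ℕ} (hu : 14 ∣ u) (hu0 : 0 < u) {N : ℤ → ℕ} {F : ℤ → ℕ → ℕ → ℕ}
    (hF : ∀ s g a, g ≤ F s g a)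
    (hN : ∀ (s : ℤ) (g m : ℕ), (s = 1 ∨ s = -1) → N (s * g * m) = F s g (m % u) * m)
    {T : ℤ → Prop}
    (hT : ClassFn u T) (X : ℕ) (P T' : ℤ → Prop) (hT' : ∀ e, T' e ↔ T e ∧ P e) :
    cnt N T' X =
      ∑ k ∈ KK' u T, ((GS u k.2.2 (X / F k.1 k.2.1 k.2.2)).filter fun m : ℕ =>
        P (k.1 * k.2.1 * m)).card := by
  unfold cnt
  rw [Finset.card_eq_sum_card_fiberwise (f := key u) (t := KK' u T)]
  · refine Finset.sum_congr rfl fun k hk => ?_
    obtain ⟨s, g, a⟩ := k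
    rw [KK', mem_filter] at hk
    obtain ⟨-, e₁, he₁, hke, hTe⟩ := hk
    obtain ⟨hs, hg0, hgu, hgs, hau, hac, -⟩ := dec hu0 he₁ hke
    have hc : Cp u a := ⟨hu, hu0, hau, hac⟩
    rw [← fiber (N := N) hs hgs hgu hc (hF s g a)
      (fun m hm => by rw [hN s g m hs, hm]) X P]
    congr 1
    ext e
    rw [mem_filter, mem_filter, mem_filter]
    rw [hT' e]
    constructor
    · rintro ⟨⟨h1, h2, h3, h4, h5⟩, h6⟩
      exact ⟨h1, h2, h3, h6, h5⟩
    · rintro ⟨h1, h2, h3, h6, h5⟩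
      exact ⟨⟨h1, h2, h3, (hT e e₁ h2 he₁ (h6.trans hke.symm)).2 hTe, h5⟩, h6⟩
  · intro e he
    rw [Finset.mem_coe, mem_filter] at he
    obtain ⟨h1, h2, h3, h45⟩ := he
    obtain ⟨h4, h5⟩ := (hT' e).1 h45
    rw [Finset.mem_coe, KK', mem_filter]
    refine ⟨?_, e, h2, rfl, h4⟩
    obtain ⟨hs, hg0, hgu, hgs, hau, hac, -⟩ := dec (s := (key u e).1) (g := (key u e).2.1)
      (a := (key u e).2.2) hu0 h2 rfl
    rw [mem_product, mem_product, Nat.mem_divisors, mem_range]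
    refine ⟨?_, ⟨hgu, hu0.ne'⟩, hau⟩
    rcases hs with hs | hs <;> rw [hs] <;> simp

/-- **The general statement.** -/
theorem ratio {u : ℕ} (hu : 14 ∣ u) (hu0 : 0 < u) {N : ℤ → ℕ} (hNF : HtFn u N) {T : ℤ → Prop}
    (hT : ClassFn u T) {e₀ : ℤ} (he₀ : Squarefree e₀) (hTe₀ : T e₀) (P : ℤ → Prop) (c : ℝ)
    (hP : ∀ (s : ℤ) (g a : ℕ), (s = 1 ∨ s = -1) → Squarefree g → g ∣ u → Cp u a →
      ∀ ε : ℝ, 0 < ε → ∀ᶠ Y : ℕ in atTop,
        |(((GS u a Y).filter fun m : ℕ => P (s * g * m)).card : ℝ) - c * ((GS u a Y).card : ℝ)| ≤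
          ε * Y) :
    Tendsto (fun X : ℕ => ((cnt N (fun e => T e ∧ P e) X : ℕ) : ℝ) / ((cnt N T X : ℕ) : ℝ)) atTop
      (𝓝 c) := by
  obtain ⟨F, hF, hN⟩ := hNF
  have e1 : ∀ X, cnt N T X = ∑ k ∈ KK' u T, (GS u k.2.2 (X / F k.1 k.2.1 k.2.2)).card := by
    intro X
    have h := cnt_eq hu hu0 hF hN hT X (fun _ => True) T (fun e => (and_true _).symm.to_iff)
    rw [h]
    refine Finset.sum_congr rfl fun k _ => ?_
    rw [Finset.filter_true]
  have e2 := fun X => cnt_eq hu hu0 hF hN hT X P (fun e => T e ∧ P e) (fun _ => Iff.rfl)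
  have hK : ∀ k ∈ KK' u T, (k.1 = 1 ∨ k.1 = -1) ∧ Squarefree k.2.1 ∧ k.2.1 ∣ u ∧ Cp u k.2.2 := by
    intro k hk
    obtain ⟨s, g, a⟩ := k
    rw [KK', mem_filter] at hk
    obtain ⟨-, e₁, he₁, hke, hTe⟩ := hk
    obtain ⟨hs, hg0, hgu, hgs, hau, hac, -⟩ := dec hu0 he₁ hke
    exact ⟨hs, hgs, hgu, ⟨hu, hu0, hau, hac⟩⟩
  have hFpos : ∀ k ∈ KK' u T, 0 < F k.1 k.2.1 k.2.2 := by
    intro k hk
    exact lt_of_lt_of_le (Nat.pos_of_ne_zero (hK k hk).2.1.ne_zero) (hF _ _ _)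
  -- the key of `e₀`
  have hk₀ : key u e₀ ∈ KK' u T := by
    obtain ⟨hs, hg0, hgu, hgs, hau, hac, -⟩ := dec (s := (key u e₀).1) (g := (key u e₀).2.1)
      (a := (key u e₀).2.2) hu0 he₀ rfl
    rw [KK', mem_filter, mem_product, mem_product, Nat.mem_divisors, mem_range]
    refine ⟨⟨?_, ⟨hgu, hu0.ne'⟩, hau⟩, e₀, he₀, rfl, hTe₀⟩
    rcases hs with hs | hs <;> rw [hs] <;> simp
  set k₀ := key u e₀ with hk₀d
  set F₀ := F k₀.1 k₀.2.1 k₀.2.2 with hF₀
  have hF₀0 : 0 < F₀ := hFpos k₀ hk₀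
  -- lower bound
  have hlow : ∀ᶠ X : ℕ in atTop, 1 / (7 * (u : ℝ) * F₀) * X ≤ ((cnt N T X : ℕ) : ℝ) ∧ 1 ≤ X := by
    have h1 := (tendsto_div_nat hF₀0).eventually (card_low (hK k₀ hk₀).2.2.2)
    have hg0 : (0 : ℝ) < F₀ := by exact_mod_cast hF₀0
    have hu0' : (0 : ℝ) < u := by exact_mod_cast hu0
    filter_upwards [h1, eventually_ge_atTop (2 * F₀), eventually_ge_atTop 1] with X hX hX2 hX1
    refine ⟨?_, hX1⟩
    obtain ⟨h3, h4⟩ := hX
    have h5 : (0 : ℝ) < ((X / F₀ : ℕ) : ℝ) := by exact_mod_cast h4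
    rw [le_div_iff₀ h5] at h3
    have h6 : (X : ℝ) / F₀ - 1 ≤ ((X / F₀ : ℕ) : ℝ) := by
      have := Nat.lt_floor_add_one ((X : ℝ) / F₀)
      rw [Nat.floor_div_eq_div] at this
      linarith
    have h7 : (2 : ℝ) ≤ X / F₀ := by
      rw [le_div_iff₀ hg0]
      exact_mod_cast hX2
    have h8 : 1 / (7 * (u : ℝ) * F₀) * X = 2 / (7 * u) * (X / F₀ / 2) := by
      field_simp
    rw [h8]
    have h9 : ((GS u k₀.2.2 (X / F₀)).card : ℝ) ≤ ((cnt N T X : ℕ) : ℝ) := by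
      rw [e1]
      exact_mod_cast Finset.single_le_sum
        (f := fun k : ℤ × ℕ × ℕ => (GS u k.2.2 (X / F k.1 k.2.1 k.2.2)).card)
        (fun _ _ => Nat.zero_le _) hk₀
    refine le_trans (le_trans ?_ h3) h9
    apply mul_le_mul_of_nonneg_left _ (by positivity)
    linarith
  -- the error
  have herr : ∀ ε : ℝ, 0 < ε → ∀ᶠ X : ℕ in atTop,
      |((cnt N (fun e => T e ∧ P e) X : ℕ) : ℝ) - c * ((cnt N T X : ℕ) : ℝ)| ≤ ε * X := by
    intro ε hε
    set n : ℝ := ((KK' u T).card : ℝ) with hn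
    have hn0 : 0 ≤ n := Nat.cast_nonneg _
    have hall : ∀ᶠ X : ℕ in atTop, ∀ k ∈ KK' u T,
        |(((GS u k.2.2 (X / F k.1 k.2.1 k.2.2)).filter fun m : ℕ => P (k.1 * k.2.1 * m)).card : ℝ) -
          c * ((GS u k.2.2 (X / F k.1 k.2.1 k.2.2)).card : ℝ)| ≤
          ε / (n + 1) * ((X / F k.1 k.2.1 k.2.2 : ℕ) : ℝ) := by
      rw [Filter.eventually_all_finset]
      intro k hk
      obtain ⟨q1, q2, q3, q4⟩ := hK k hk
      exact (tendsto_div_nat (hFpos k hk)).eventually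
        (hP k.1 k.2.1 k.2.2 q1 q2 q3 q4 (ε / (n + 1)) (by positivity))
    filter_upwards [hall] with X hX
    rw [e1, e2]
    push_cast
    rw [Finset.mul_sum, ← Finset.sum_sub_distrib]
    refine (Finset.abs_sum_le_sum_abs _ _).trans ((Finset.sum_le_sum hX).trans ?_)
    have h1 : ∀ k ∈ KK' u T, ε / (n + 1) * ((X / F k.1 k.2.1 k.2.2 : ℕ) : ℝ) ≤ ε / (n + 1) * X := by
      intro k _
      have : ((X / F k.1 k.2.1 k.2.2 : ℕ) : ℝ) ≤ X := by exact_mod_cast Nat.div_le_self _ _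
      exact mul_le_mul_of_nonneg_left this (by positivity)
    refine (Finset.sum_le_card_nsmul _ _ _ h1).trans ?_
    rw [nsmul_eq_mul, ← hn]
    have h2 : n * (ε / (n + 1) * X) = (n / (n + 1)) * (ε * X) := by ring
    rw [h2]
    have h3 : n / (n + 1) ≤ 1 := by
      rw [div_le_one (by positivity)]
      linarith
    exact mul_le_of_le_one_left (by positivity) h3
  rw [Metric.tendsto_atTop]
  intro ε hε
  have hg0 : (0 : ℝ) < F₀ := by exact_mod_cast hF₀0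
  have hu0' : (0 : ℝ) < u := by exact_mod_cast hu0
  obtain ⟨X₀, h0⟩ := eventually_atTop.1 ((herr (ε / (2 * (7 * u * F₀))) (by positivity)).and hlow)
  refine ⟨X₀, fun X hX => ?_⟩
  obtain ⟨h1, h2, h3⟩ := h0 X hX
  have hX0 : (0 : ℝ) < X := by exact_mod_cast h3
  have hS : (0 : ℝ) < ((cnt N T X : ℕ) : ℝ) := lt_of_lt_of_le (by positivity) h2
  rw [Real.dist_eq]
  have e : ((cnt N (fun e => T e ∧ P e) X : ℕ) : ℝ) / ((cnt N T X : ℕ) : ℝ) - c =
      (((cnt N (fun e => T e ∧ P e) X : ℕ) : ℝ) - c * ((cnt N T X : ℕ) : ℝ)) /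
        ((cnt N T X : ℕ) : ℝ) := by
    field_simp
  rw [e, abs_div, abs_of_pos hS, div_lt_iff₀ hS]
  have h4 : ε / (2 * (7 * u * F₀)) * X < ε * ((cnt N T X : ℕ) : ℝ) := by
    have h5 : ε * (1 / (7 * (u : ℝ) * F₀) * X) = 2 * (ε / (2 * (7 * u * F₀)) * X) := by
      field_simp
    have h6 : 0 < ε / (2 * (7 * u * F₀)) * X := by positivity
    have := mul_le_mul_of_nonneg_left h2 hε.le
    linarith
  linarith

end Pool.Agent.L0h74.AP
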