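import Mathlib
import Pool.Agent.L0h74.AP.Cls

/-!
# AP: the proportion of the good twists in sets of square-free integers defined by local conditions
-/

set_option autoImplicit false
set_option linter.unusedSectionVars false
set_option linter.unusedVariables false

open scoped Classical

namespace Pool.Agent.L0h74.AP

open Finset Filter
open scoped Topology
open Pool.Agent.Y698 Pool.Agent.Y698.SG
open Pool.Agent.L0h74.EV (QPw NSA)
open Pool.Agent.Y703.CQ (c2)

/-- the primes different from `7` which divide `n` to an odd power -/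
def Ds (n : ℤ) : Finset ℕ :=
  n.natAbs.primeFactors.filter fun p => p ≠ 7 ∧ n.natAbs.factorization p % 2 = 1

/-- the square-free part prime to `7` of `|n|` -/
def Dn (n : ℤ) : ℕ := ∏ p ∈ Ds n, p

theorem Ds_prime {n : ℤ} {p : ℕ} (h : p ∈ Ds n) : p.Prime := by
  rw [Ds, mem_filter] at h
  exact Nat.prime_of_mem_primeFactors h.1

theorem Dn_pf (n : ℤ) : (Dn n).primeFactors = Ds n :=
  Nat.primeFactors_prod fun p hp => Ds_prime hp

theorem Dn_sq (n : ℤ) : Squarefree (Dn n) := by
  refine Finset.squarefree_prod_of_pairwise_isCoprime (fun p hp q hq hpq => ?_)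
    fun p hp => (Ds_prime hp).prime.squarefree
  rw [Function.onFun, ← Nat.coprime_iff_isRelPrime]
  exact (Nat.coprime_primes (Ds_prime hp) (Ds_prime hq)).2 hpq

theorem Dn_dvd {n : ℤ} {p : ℕ} (hp : p.Prime) : p ∣ Dn n ↔ p ∈ Ds n := by
  rw [← Dn_pf, Nat.mem_primeFactors]
  constructor
  · exact fun h => ⟨hp, h, (Dn_sq n).ne_zero⟩
  · exact fun h => h.2.1

theorem Dn_seven (n : ℤ) : ¬ 7 ∣ Dn n := by
  rw [Dn_dvd (by norm_num), Ds, mem_filter]
  exact fun h => h.2.1 rfl

theorem Ds_mul {u : ℕ} (hu : 14 ∣ u) {s : ℤ} (hs : s = 1 ∨ s = -1) {g m : ℕ} (hg0 : g ≠ 0)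
    (hgu : g ∣ u) {d : ℤ} (hd0 : d ≠ 0) (hd : ∀ p, p.Prime → p ∣ d.natAbs → p ∣ u)
    (hm : Squarefree m) (hc : Nat.Coprime m u) :
    Ds (s * g * m * d) = Ds (g * d) ∪ m.primeFactors ∧ Disjoint (Ds (g * d)) m.primeFactors := by
  have hn : (s * g * m * d : ℤ).natAbs = (g * d.natAbs) * m := by
    rw [Int.natAbs_mul, Int.natAbs_mul, Int.natAbs_mul, Int.natAbs_natCast, Int.natAbs_natCast]
    rcases hs with rfl | rfl
    · simp; ring
    · simp; ring
  have hn' : (g * d : ℤ).natAbs = g * d.natAbs := by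
    rw [Int.natAbs_mul, Int.natAbs_natCast]
  have hA0 : g * d.natAbs ≠ 0 := mul_ne_zero hg0 (Int.natAbs_ne_zero.2 hd0)
  have hm0 : m ≠ 0 := hm.ne_zero
  have hpu : ∀ p, p.Prime → p ∣ g * d.natAbs → p ∣ u := by
    intro p hp h
    rcases (Nat.Prime.dvd_mul hp).1 h with h | h
    · exact h.trans hgu
    · exact hd p hp h
  have hcop : ∀ p, p.Prime → p ∣ m → ¬ p ∣ u := by
    intro p hp h h'
    have := Nat.dvd_gcd h h'
    rw [hc] at this
    exact hp.one_lt.ne' (Nat.dvd_one.1 this)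
  have hAm : Nat.Coprime (g * d.natAbs) m := by
    rw [Nat.coprime_iff_gcd_eq_one]
    by_contra hne
    obtain ⟨p, hp, hd'⟩ := Nat.exists_prime_and_dvd hne
    exact hcop p hp (hd'.trans (Nat.gcd_dvd_right _ _)) (hpu p hp (hd'.trans (Nat.gcd_dvd_left _ _)))
  have hfac : ∀ p, ((g * d.natAbs) * m).factorization p =
      (g * d.natAbs).factorization p + m.factorization p := by
    intro p
    rw [Nat.factorization_mul hA0 hm0]
    rfl
  constructor
  · ext p
    unfold Ds
    rw [hn, hn', mem_union, mem_filter, mem_filter, hfac]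
    rw [Nat.Coprime.primeFactors_mul hAm, mem_union]
    constructor
    · rintro ⟨h1, h2, h3⟩
      rcases h1 with h1 | h1
      · left
        have hp := Nat.prime_of_mem_primeFactors h1
        have hpm : ¬ p ∣ m := fun h' => hcop p hp h' (hpu p hp (Nat.dvd_of_mem_primeFactors h1))
        rw [Nat.factorization_eq_zero_of_not_dvd hpm, add_zero] at h3
        exact ⟨h1, h2, h3⟩
      · right; exact h1
    · rintro (⟨h1, h2, h3⟩ | h1)
      · have hp := Nat.prime_of_mem_primeFactors h1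
        have hpm : ¬ p ∣ m := fun h' => hcop p hp h' (hpu p hp (Nat.dvd_of_mem_primeFactors h1))
        rw [Nat.factorization_eq_zero_of_not_dvd hpm, add_zero]
        exact ⟨Or.inl h1, h2, h3⟩
      · have hp := Nat.prime_of_mem_primeFactors h1
        have hpm := Nat.dvd_of_mem_primeFactors h1
        have hpA : ¬ p ∣ g * d.natAbs := fun h' => hcop p hp hpm (hpu p hp h')
        have h7 : p ≠ 7 := by
          rintro rfl
          exact hcop 7 hp hpm ((by norm_num : 7 ∣ 14).trans hu)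
        have h1' : m.factorization p = 1 := by
          have a1 := hm.natFactorization_le_one p
          have a2 := (hp.dvd_iff_one_le_factorization hm0).1 hpm
          omega
        rw [Nat.factorization_eq_zero_of_not_dvd hpA, h1']
        exact ⟨Or.inr h1, h7, rfl⟩
  · rw [Finset.disjoint_left]
    intro p h1 h2
    rw [Ds, mem_filter, hn'] at h1
    exact hcop p (Nat.prime_of_mem_primeFactors h2) (Nat.dvd_of_mem_primeFactors h2)
      (hpu p (Nat.prime_of_mem_primeFactors h2) (Nat.dvd_of_mem_primeFactors h1.1))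

theorem Dn_mul {u : ℕ} (hu : 14 ∣ u) {s : ℤ} (hs : s = 1 ∨ s = -1) {g m : ℕ} (hg0 : g ≠ 0)
    (hgu : g ∣ u) {d : ℤ} (hd0 : d ≠ 0) (hd : ∀ p, p.Prime → p ∣ d.natAbs → p ∣ u)
    (hm : Squarefree m) (hc : Nat.Coprime m u) :
    Dn (s * g * m * d) = Dn (g * d) * m := by
  obtain ⟨h1, h2⟩ := Ds_mul hu hs hg0 hgu hd0 hd hm hc
  unfold Dn
  rw [h1, prod_union h2, Nat.prod_primeFactors_of_squarefree hm]

/-- the absolute value of the discriminant of `ℚ(√e)` -/
def cnd (e : ℤ) : ℕ := if e % 4 = 1 then e.natAbs else 4 * e.natAbs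

theorem cnd_ht {u : ℕ} (h4 : 4 ∣ u) : HtFn u cnd := by
  refine ⟨fun s g a => if (s * g * a : ℤ) % 4 = 1 then g else 4 * g, fun s g a => ?_,
    fun s g m hs => ?_⟩
  · show g ≤ if _ then g else 4 * g
    split_ifs
    · exact le_rfl
    · exact Nat.le_mul_of_pos_left g (by norm_num)
  · show cnd (s * g * m) = (if (s * g * ((m % u : ℕ) : ℤ) : ℤ) % 4 = 1 then g else 4 * g) * m
    have hn : (s * g * m : ℤ).natAbs = g * m := by
      rw [Int.natAbs_mul, Int.natAbs_mul, Int.natAbs_natCast, Int.natAbs_natCast]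
      rcases hs with rfl | rfl <;> simp
    have hmod : (s * g * ((m % u : ℕ) : ℤ) : ℤ) % 4 = (s * g * m : ℤ) % 4 := by
      apply Int.ModEq.mul_left
      have h1 : ((m % u : ℕ) : ℤ) % 4 = (m : ℤ) % 4 := by
        have : (m % u) % 4 = m % 4 := Nat.mod_mod_of_dvd m h4
        omega
      exact h1
    unfold cnd
    rw [hn, hmod]
    split_ifs <;> ring

section
variable {Qf Pf : ℕ → Finset ℕ} {w : ℕ → RR} {u : ℕ}

/-- **The proportion of the good twists among the square-free integers in any set defined by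
conditions on the class**, for any twist by `d` -/
theorem main (h : QPw Qf Pf w) (hu : 56 ∣ u) (hu0 : 0 < u) {d : ℤ} (hd0 : d ≠ 0)
    (hd : ∀ p, p.Prime → p ∣ d.natAbs → p ∣ u) {N : ℤ → ℕ} (hNF : HtFn u N) {T : ℤ → Prop}
    (hT : ClassFn u T) {e₀ : ℤ} (he₀ : Squarefree e₀) (hTe₀ : T e₀) :
    Tendsto (fun X : ℕ => ((cnt N (fun e => T e ∧ NSA Qf Pf w (Dn (e * d))) X : ℕ) : ℝ) /
      ((cnt N T X : ℕ) : ℝ)) atTop (𝓝 (c2 / 2)) := by
  have hu14 : 14 ∣ u := (by norm_num : 14 ∣ 56).trans hu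
  refine ratio hu14 hu0 hNF hT he₀ hTe₀ (fun e => NSA Qf Pf w (Dn (e * d))) (c2 / 2) ?_
  intro s g a hs hg hgu hc ε hε
  have hD : ∀ p, p.Prime → p ∣ Dn (g * d) → p ∣ u := by
    intro p hp hdp
    rw [Dn_dvd hp, Ds, mem_filter] at hdp
    have h1 := Nat.dvd_of_mem_primeFactors hdp.1
    rw [Int.natAbs_mul, Int.natAbs_natCast] at h1
    rcases (Nat.Prime.dvd_mul hp).1 h1 with h2 | h2
    · exact h2.trans hgu
    · exact hd p hp h2
  filter_upwards [base h hc ((by norm_num : 8 ∣ 56).trans hu) (Dn_sq (g * d)) (Dn_seven _) hD ε hε]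
    with Y hY
  rw [show (GS u a Y).filter (fun m : ℕ => NSA Qf Pf w (Dn ((s * g * m) * d))) =
    (GS u a Y).filter (fun m => NSA Qf Pf w (Dn (g * d) * m)) from ?_]
  · exact hY
  · refine Finset.filter_congr fun m hm => ?_
    rw [GS, mem_filter] at hm
    have hcop : Nat.Coprime m u := by
      rw [Nat.coprime_iff_gcd_eq_one, Nat.gcd_comm, Nat.gcd_rec, hm.2.2]
      exact hc.cop
    rw [Dn_mul hu14 hs hg.ne_zero hgu hd0 hd hm.2.1 hcop]

end

end Pool.Agent.L0h74.AP
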