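import Mathlib
import Pool.Agent.L0h74.AP.Main

/-!
# AP: the local conditions depend on the class
-/

set_option autoImplicit false
set_option linter.unusedSectionVars false
set_option linter.unusedVariables false

open scoped Classical

namespace Pool.Agent.L0h74.AP

open Polynomial

theorem classFn_of {u : ℕ} (hu0 : 0 < u) {T : ℤ → Prop}
    (h : ∀ (s : ℤ) (g m m' : ℕ), (s = 1 ∨ s = -1) → 0 < g → g ∣ u → 0 < m → 0 < m' →
      Nat.Coprime m u → Nat.Coprime m' u → m % u = m' % u → T (s * g * m) → T (s * g * m')) :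
    ClassFn u T := by
  intro e e' he he' hk
  obtain ⟨hs, hg0, hgu, -, -, -, m, hm, hm0, hma, -, hmc⟩ := dec (s := (key u e).1)
    (g := (key u e).2.1) (a := (key u e).2.2) hu0 he rfl
  obtain ⟨-, -, -, -, -, -, m', hm', hm0', hma', -, hmc'⟩ := dec (s := (key u e).1)
    (g := (key u e).2.1) (a := (key u e).2.2) hu0 he' hk.symm
  constructor
  · intro hT
    rw [hm] at hT
    rw [hm']
    exact h _ _ _ _ hs hg0 hgu hm0 hm0' hmc hmc' (hma.trans hma'.symm) hT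
  · intro hT
    rw [hm'] at hT
    rw [hm]
    exact h _ _ _ _ hs hg0 hgu hm0' hm0 hmc' hmc (hma'.trans hma.symm) hT

theorem ClassFn.and {u : ℕ} {T T' : ℤ → Prop} (h : ClassFn u T) (h' : ClassFn u T') :
    ClassFn u fun e => T e ∧ T' e := fun e e' h1 h2 hk => and_congr (h e e' h1 h2 hk)
      (h' e e' h1 h2 hk)

theorem classFn_const {u : ℕ} (P : Prop) : ClassFn u fun _ => P := fun _ _ _ _ _ => Iff.rfl

theorem ClassFn.imp {u : ℕ} {T T' : ℤ → Prop} (h : ClassFn u T) (h' : ClassFn u T') :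
    ClassFn u fun e => T e → T' e := fun e e' h1 h2 hk => imp_congr (h e e' h1 h2 hk)
      (h' e e' h1 h2 hk)

theorem ClassFn.all {u : ℕ} {ι : Sort*} {T : ι → ℤ → Prop} (h : ∀ i, ClassFn u (T i)) :
    ClassFn u fun e => ∀ i, T i e := fun e e' h1 h2 hk =>
      forall_congr' fun i => h i e e' h1 h2 hk

/-! ### squares in the `p`-adic numbers -/

section
variable {p : ℕ} [hp : Fact p.Prime]

theorem toZMod_int (a : ℤ) : PadicInt.toZMod (a : ℤ_[p]) = (a : ZMod p) := map_intCast _ a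

/-- A unit whose residue is a square is a square (after `W335/BMX/Odd.lean`). -/
theorem sq_of_residue (hp2 : p ≠ 2) (a b : ℤ) (hb : ¬ (p : ℤ) ∣ b)
    (h : (a : ZMod p) = (b : ZMod p) ^ 2) : IsSquare ((a : ℤ) : ℚ_[p]) := by
  have h2 : ¬ (p : ℤ) ∣ 2 := by
    intro h
    have h1 : p ∣ 2 := by exact_mod_cast h
    exact hp2 ((Nat.prime_dvd_prime_iff_eq hp.out Nat.prime_two).mp h1)
  have h2b : ¬ (p : ℤ) ∣ 2 * b := fun h =>
    (Int.Prime.dvd_mul' hp.out h).elim h2 hb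
  set u : ℤ_[p] := ((a : ℤ) : ℤ_[p]) with hu
  set F : ℤ_[p][X] := X ^ 2 - C u with hF
  have hder : ‖F.derivative.aeval ((b : ℤ) : ℤ_[p])‖ = 1 := by
    have e : F.derivative.aeval ((b : ℤ) : ℤ_[p]) = ((2 * b : ℤ) : ℤ_[p]) := by
      simp [hF]
      left
      norm_num
    rw [e]
    refine le_antisymm (PadicInt.norm_le_one _) ?_
    by_contra hc
    rw [not_le, PadicInt.norm_int_lt_one_iff_dvd] at hc
    exact h2b hc
  have hval : ‖F.aeval ((b : ℤ) : ℤ_[p])‖ < 1 := by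
    have e : F.aeval ((b : ℤ) : ℤ_[p]) = ((b ^ 2 - a : ℤ) : ℤ_[p]) := by simp [hF, hu]
    rw [e, PadicInt.norm_int_lt_one_iff_dvd]
    have h3 : ((b ^ 2 - a : ℤ) : ZMod p) = 0 := by push_cast; rw [h, sub_self]
    rwa [ZMod.intCast_zmod_eq_zero_iff_dvd] at h3
  obtain ⟨z, hz, -⟩ := hensels_lemma (p := p) (F := F) (a := ((b : ℤ) : ℤ_[p]))
    (by rw [hder]; simpa using hval)
  have e : F.aeval z = z ^ 2 - u := by simp [hF]
  rw [e, sub_eq_zero] at hz
  refine ⟨(z : ℚ_[p]), ?_⟩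
  have h5 := congrArg (fun x : ℤ_[p] => (x : ℚ_[p])) hz
  simp only [hu] at h5
  push_cast at h5
  rw [← h5, sq]

end

/-- an integer which is `1` modulo `8` is a square in `ℚ_2` (after `N3/PQ/TW2.lean`) -/
theorem sq_two (D : ℤ) (hD : D % 8 = 1) : IsSquare ((D : ℤ) : ℚ_[2]) := by
  obtain ⟨F, hF⟩ : ∃ F : ℤ[X], F = X ^ 2 - C D := ⟨_, rfl⟩
  have h1 : F.aeval (1 : ℤ_[2]) = ((1 - D : ℤ) : ℤ_[2]) := by
    rw [hF, map_sub, map_pow, aeval_X, aeval_C]
    simp
  have h2 : F.derivative.aeval (1 : ℤ_[2]) = 2 := by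
    rw [hF]
    simp only [derivative_sub, derivative_X_pow, derivative_C, sub_zero, map_mul, aeval_C, map_pow,
      aeval_X, one_pow, mul_one]
    simp
  have hn2 : ‖(2 : ℤ_[2])‖ = 2⁻¹ := by
    have := PadicInt.norm_p (p := 2)
    push_cast at this
    exact this
  have h3 : ‖F.aeval (1 : ℤ_[2])‖ < ‖F.derivative.aeval (1 : ℤ_[2])‖ ^ 2 := by
    rw [h1, h2, hn2]
    have h4 : ‖((1 - D : ℤ) : ℤ_[2])‖ ≤ ((2 : ℕ) : ℝ) ^ (-((3 : ℕ) : ℤ)) := by
      rw [PadicInt.norm_int_le_pow_iff_dvd]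
      push_cast
      omega
    refine h4.trans_lt ?_
    norm_num
  obtain ⟨z, hz, -⟩ := hensels_lemma h3
  refine ⟨(z : ℚ_[2]), ?_⟩
  rw [hF, map_sub, map_pow, aeval_X, aeval_C, sub_eq_zero] at hz
  have h5 := congrArg (fun x : ℤ_[2] => (x : ℚ_[2])) hz
  rw [← sq]
  simpa using h5.symm

/-- two numbers in the same class prime to `u` have a square as product -/
theorem mm_sq {p : ℕ} [hp : Fact p.Prime] {u m m' : ℕ} (hpu : p ∣ u) (h8 : 8 ∣ u)
    (hm : Nat.Coprime m u) (hm' : Nat.Coprime m' u) (h : m % u = m' % u) :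
    IsSquare (((m * m' : ℤ) : ℤ) : ℚ_[p]) := by
  have hpm : ¬ (p : ℤ) ∣ (m : ℤ) := by
    intro hd
    have h1 : p ∣ m := by exact_mod_cast hd
    have h2 := Nat.dvd_gcd h1 hpu
    rw [hm] at h2
    exact hp.out.one_lt.ne' (Nat.dvd_one.1 h2)
  by_cases hp2 : p = 2
  · subst hp2
    refine sq_two _ ?_
    have h1 : m % 8 = m' % 8 := by
      have h2 : m % u % 8 = m % 8 := Nat.mod_mod_of_dvd m h8
      have h3 : m' % u % 8 = m' % 8 := Nat.mod_mod_of_dvd m' h8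
      rw [← h2, ← h3, h]
    have h2 : m % 2 = 1 := by
      by_contra h3
      apply hpm
      have : m % 2 = 0 := by omega
      exact_mod_cast Nat.dvd_of_mod_eq_zero this
    have h3 : (m : ℤ) % 8 = 1 ∨ (m : ℤ) % 8 = 3 ∨ (m : ℤ) % 8 = 5 ∨ (m : ℤ) % 8 = 7 := by omega
    have h4 : (m' : ℤ) % 8 = (m : ℤ) % 8 := by omega
    rw [Int.mul_emod, h4]
    rcases h3 with h3 | h3 | h3 | h3 <;> rw [h3] <;> norm_num
  · refine sq_of_residue hp2 _ (m : ℤ) hpm ?_
    have h1 : (m : ZMod p) = (m' : ZMod p) := by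
      rw [ZMod.natCast_eq_natCast_iff]
      have h2 : m % u % p = m % p := Nat.mod_mod_of_dvd m hpu
      have h3 : m' % u % p = m' % p := Nat.mod_mod_of_dvd m' hpu
      show m % p = m' % p
      rw [← h2, ← h3, h]
    push_cast
    rw [← h1, sq]

/-- the local condition at `p` -/
theorem classFn_loc {u : ℕ} (hu0 : 0 < u) (h8 : 8 ∣ u) (p : ℕ) [hp : Fact p.Prime] (hpu : p ∣ u)
    (e₀ : ℤ) : ClassFn u fun e => IsSquare (((e * e₀ : ℤ) : ℤ) : ℚ_[p]) := by
  refine classFn_of hu0 fun s g m m' hs hg0 hgu hm0 hm0' hm hm' hmm hT => ?_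
  obtain ⟨z, hz⟩ := hT
  obtain ⟨y, hy⟩ := mm_sq hpu h8 hm hm' hmm
  have hm1 : (m : ℚ_[p]) ≠ 0 := by exact_mod_cast hm0.ne'
  refine ⟨z * y / m, ?_⟩
  push_cast at hz hy ⊢
  field_simp
  linear_combination (m' : ℚ_[p]) * m * hz + z ^ 2 * hy

/-- the sign -/
theorem classFn_sign {u : ℕ} (hu0 : 0 < u) (e₀ : ℤ) : ClassFn u fun e => 0 < e * e₀ := by
  refine classFn_of hu0 fun s g m m' hs hg0 hgu hm0 hm0' hm hm' hmm hT => ?_
  have h1 : 0 < (s * g * e₀) * m := by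
    have : (s * g * e₀) * m = s * g * m * e₀ := by ring
    rw [this]
    exact hT
  have hm1 : (0 : ℤ) < m := by exact_mod_cast hm0
  have h2 : 0 < s * g * e₀ := pos_of_mul_pos_left h1 hm1.le
  have hm2 : (0 : ℤ) < m' := by exact_mod_cast hm0'
  have : s * g * m' * e₀ = (s * g * e₀) * m' := by ring
  rw [this]
  exact mul_pos h2 hm2

/-- the root number of the twist by `n` of `X_0(49)` is `+1` -/
def RootPlus (n : ℤ) : Prop :=
  (0 < n ∧ Even (padicValInt 7 n)) ∨ (n < 0 ∧ Odd (padicValInt 7 n))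

theorem classFn_root {u : ℕ} (hu0 : 0 < u) (h7 : 7 ∣ u) {d : ℤ} (hd0 : d ≠ 0) :
    ClassFn u fun e => RootPlus (e * d) := by
  refine classFn_of hu0 fun s g m m' hs hg0 hgu hm0 hm0' hm hm' hmm hT => ?_
  have h7p : Fact (Nat.Prime 7) := ⟨by norm_num⟩
  have hv : ∀ k : ℕ, 0 < k → Nat.Coprime k u → padicValInt 7 (s * g * k * d) =
      padicValInt 7 (s * g * d) := by
    intro k hk hku
    have hs0 : s ≠ 0 := by rcases hs with rfl | rfl <;> norm_num
    have hg1 : (g : ℤ) ≠ 0 := by exact_mod_cast hg0.ne'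
    have hk1 : (k : ℤ) ≠ 0 := by exact_mod_cast hk.ne'
    have e : (s * g * k * d : ℤ) = (s * g * d) * k := by ring
    rw [e, padicValInt.mul (mul_ne_zero (mul_ne_zero hs0 hg1) hd0) hk1]
    have h0 : padicValInt 7 (k : ℤ) = 0 := by
      rw [padicValInt.of_nat]
      apply padicValNat.eq_zero_of_not_dvd
      intro h
      have := Nat.dvd_gcd h h7
      rw [hku] at this
      omega
    rw [h0, add_zero]
  have hm1 : (0 : ℤ) < m := by exact_mod_cast hm0
  have hm2 : (0 : ℤ) < m' := by exact_mod_cast hm0'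
  have e1 : ∀ k : ℤ, (s * g * k * d : ℤ) = (s * g * d) * k := fun k => by ring
  unfold RootPlus at hT ⊢
  rw [hv m' hm0' hm']
  rw [hv m hm0 hm] at hT
  rw [e1] at hT ⊢
  rcases hT with ⟨h1, h2⟩ | ⟨h1, h2⟩
  · left
    exact ⟨mul_pos (pos_of_mul_pos_left h1 hm1.le) hm2, h2⟩
  · right
    refine ⟨mul_neg_of_neg_of_pos ?_ hm2, h2⟩
    by_contra hc
    push Not at hc
    exact absurd h1 (not_lt.2 (mul_nonneg hc hm1.le))

end Pool.Agent.L0h74.AP
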