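import Mathlib
import Pool.Agent.L0h74.AP.Loc

/-!
# AP: the square-free part
-/

set_option autoImplicit false
set_option linter.unusedVariables false

open scoped Classical

namespace Pool.Agent.L0h74.AP

open Finset

theorem Dn_decomp {n : ℤ} (hn : n ≠ 0) : ∃ t : ℕ, t ≠ 0 ∧
    ((Even (padicValInt 7 n) ∧ n.natAbs = Dn n * t ^ 2) ∨
      (Odd (padicValInt 7 n) ∧ n.natAbs = 7 * Dn n * t ^ 2)) := by
  have h7p : Fact (Nat.Prime 7) := ⟨by norm_num⟩
  have hn0 : n.natAbs ≠ 0 := Int.natAbs_ne_zero.2 hn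
  obtain ⟨a, b, hab, hsq⟩ := Nat.sq_mul_squarefree n.natAbs
  have hb0 : b ≠ 0 := by
    rintro rfl
    apply hn0
    rw [← hab]
    simp
  have ha0 : a ≠ 0 := hsq.ne_zero
  have hfac : ∀ p, n.natAbs.factorization p = 2 * b.factorization p + a.factorization p := by
    intro p
    rw [← hab, Nat.factorization_mul (pow_ne_zero 2 hb0) ha0, Nat.factorization_pow]
    simp
  have ha1 : ∀ p, a.factorization p ≤ 1 := fun p => hsq.natFactorization_le_one p
  have hmem : ∀ p, p.Prime → (p ∣ a ↔ a.factorization p = 1) := by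
    intro p hp
    rw [hp.dvd_iff_one_le_factorization ha0]
    have := ha1 p
    omega
  have hDs : Ds n = a.primeFactors.filter fun p => p ≠ 7 := by
    ext p
    rw [Ds, mem_filter, mem_filter, Nat.mem_primeFactors, Nat.mem_primeFactors, hfac]
    constructor
    · rintro ⟨⟨h1, h2, h3⟩, h4, h5⟩
      refine ⟨⟨h1, (hmem p h1).2 ?_, ha0⟩, h4⟩
      have := ha1 p
      omega
    · rintro ⟨⟨h1, h2, h3⟩, h4⟩
      have h5 := (hmem p h1).1 h2
      refine ⟨⟨h1, ?_, hn0⟩, h4, by omega⟩
      rw [← hab]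
      exact Dvd.dvd.mul_left h2 _
  have hval : padicValInt 7 n = 2 * b.factorization 7 + a.factorization 7 := by
    rw [← hfac]
    unfold padicValInt
    rw [Nat.factorization_def _ (by norm_num : Nat.Prime 7)]
  refine ⟨b, hb0, ?_⟩
  by_cases h7 : 7 ∣ a
  · right
    have h1 := (hmem 7 (by norm_num)).1 h7
    refine ⟨by rw [hval, h1]; exact ⟨_, rfl⟩, ?_⟩
    have h2 : 7 * Dn n = a := by
      have h3 : a.primeFactors = insert 7 (Ds n) := by
        rw [hDs]
        ext p
        rw [mem_insert, mem_filter]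
        constructor
        · intro h
          by_cases hp : p = 7
          · left; exact hp
          · right; exact ⟨h, hp⟩
        · rintro (rfl | h)
          · exact Nat.mem_primeFactors.2 ⟨by norm_num, h7, ha0⟩
          · exact h.1
      have h4 : 7 ∉ Ds n := by
        rw [hDs, mem_filter]
        exact fun h => h.2 rfl
      have h5 := Nat.prod_primeFactors_of_squarefree hsq
      rw [h3, prod_insert h4] at h5
      exact h5
    rw [h2, ← hab]
    ring
  · left
    have h1 : a.factorization 7 = 0 := Nat.factorization_eq_zero_of_not_dvd h7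
    refine ⟨by rw [hval, h1, add_zero]; exact even_two_mul _, ?_⟩
    have h2 : Dn n = a := by
      have h3 : a.primeFactors = Ds n := by
        rw [hDs]
        symm
        rw [filter_eq_self]
        rintro p hp rfl
        exact h7 (Nat.dvd_of_mem_primeFactors hp)
      have h5 := Nat.prod_primeFactors_of_squarefree hsq
      rw [h3] at h5
      exact h5
    rw [h2, ← hab]
    ring

/-- **The twists with root number `+1`**: `n = D t²` or `n = -7 D t²`. -/
theorem root_decomp {n : ℤ} (h : RootPlus n) : ∃ (t m : ℤ), t ≠ 0 ∧ n = m * t ^ 2 ∧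
    (m = Dn n ∨ m = -7 * Dn n) := by
  have hn : n ≠ 0 := by
    rcases h with h | h
    · exact h.1.ne'
    · exact h.1.ne
  obtain ⟨t, ht0, ht⟩ := Dn_decomp hn
  have ht0' : (t : ℤ) ≠ 0 := by exact_mod_cast ht0
  rcases h with ⟨h1, h2⟩ | ⟨h1, h2⟩
  · rcases ht with ⟨h3, h4⟩ | ⟨h3, h4⟩
    · refine ⟨t, Dn n, ht0', ?_, Or.inl rfl⟩
      have h5 : (n.natAbs : ℤ) = n := Int.natAbs_of_nonneg h1.le
      have h6 : ((Dn n * t ^ 2 : ℕ) : ℤ) = n := by rw [← h4]; exact h5
      push_cast at h6
      exact h6.symm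
    · exact absurd h2 (Nat.not_even_iff_odd.2 h3)
  · rcases ht with ⟨h3, h4⟩ | ⟨h3, h4⟩
    · exact absurd h3 (Nat.not_even_iff_odd.2 h2)
    · refine ⟨t, -7 * Dn n, ht0', ?_, Or.inr rfl⟩
      have h5 : (n.natAbs : ℤ) = -n := Int.ofNat_natAbs_of_nonpos h1.le
      have h6 : ((7 * Dn n * t ^ 2 : ℕ) : ℤ) = -n := by rw [← h4]; exact h5
      push_cast at h6
      linarith

end Pool.Agent.L0h74.AP
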